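import Pool.Agent.Helper26.LU.Goals

/-!
# Project LU (MP_db6300_gt), packet E2: the null equations for the limit
-/

namespace Pool.Agent.Helper75.LU

open MeasureTheory Matrix Real Filter Topology
open Pool.Agent.Helper26.LU

/-- the exponents of degree `d` -/
def Sd (d : ℕ) : Finset (Fin 3 × Fin 3 →₀ ℕ) :=
  Finset.finsuppAntidiag (Finset.univ : Finset (Fin 3 × Fin 3)) d

theorem supp_Sd {P : MvPolynomial (Fin 3 × Fin 3) ℝ} {d : ℕ} (hP : P.IsHomogeneous d) :
    P.support ⊆ Sd d := by
  intro m hm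
  have h1 : MvPolynomial.coeff m P ≠ 0 := MvPolynomial.mem_support_iff.1 hm
  unfold Sd
  rw [Finset.mem_finsuppAntidiag]
  refine ⟨?_, Finset.subset_univ _⟩
  by_contra hc
  apply h1
  apply hP.coeff_eq_zero
  rw [Finsupp.degree_eq_sum]
  exact hc

theorem evM_sum {P : MvPolynomial (Fin 3 × Fin 3) ℝ} {d : ℕ} (hP : P.IsHomogeneous d) (R : M3) :
    evM P R = ∑ m ∈ Sd d, MvPolynomial.coeff m P * ∏ i, R i.1 i.2 ^ m i := by
  unfold evM
  rw [MvPolynomial.eval_eq']
  refine Finset.sum_subset (supp_Sd hP) fun m _ hm => ?_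
  rw [MvPolynomial.notMem_support_iff.1 hm, zero_mul]

theorem evC_sum {P : MvPolynomial (Fin 3 × Fin 3) ℝ} {d : ℕ} (hP : P.IsHomogeneous d)
    (Z : Matrix (Fin 3) (Fin 3) ℂ) :
    evC P Z = ∑ m ∈ Sd d, ((MvPolynomial.coeff m P : ℝ) : ℂ) * ∏ i, Z i.1 i.2 ^ m i := by
  unfold evC
  rw [MvPolynomial.aeval_def, MvPolynomial.eval₂_eq']
  refine Finset.sum_subset (supp_Sd hP) fun m _ hm => ?_
  rw [MvPolynomial.notMem_support_iff.1 hm, map_zero, zero_mul]

theorem cont_path (A B : M3) : Continuous fun x : ℝ => A * Rot x * B := by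
  have h : Continuous fun x : ℝ => Rot x := by
    refine continuous_matrix fun i j => ?_
    fin_cases i <;> fin_cases j <;> simp [Rot] <;> fun_prop
  exact (continuous_const.mul h).mul continuous_const

theorem cont_mon (m : Fin 3 × Fin 3 →₀ ℕ) (A B : M3) :
    Continuous fun x : ℝ => ∏ i : Fin 3 × Fin 3, (A * Rot x * B) i.1 i.2 ^ m i := by
  refine continuous_finsetProd _ fun i _ => Continuous.pow ?_ _
  exact (cont_path A B).matrix_elem i.1 i.2

theorem cont_exp (w : ℕ) : Continuous fun x : ℝ => Complex.exp (Complex.I * w * x) := by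
  fun_prop

theorem cont_evM (P : MvPolynomial (Fin 3 × Fin 3) ℝ) (A B : M3) :
    Continuous fun x : ℝ => evM P (A * Rot x * B) := by
  unfold evM
  refine (MvPolynomial.continuous_eval P).comp ?_
  exact continuous_pi fun i => (cont_path A B).matrix_elem i.1 i.2

/-- the Fourier functional -/
noncomputable def J (w : ℕ) (A B : M3) (P : MvPolynomial (Fin 3 × Fin 3) ℝ) : ℂ :=
  ∫ x in (0 : ℝ)..2 * π, (evM P (A * Rot x * B) : ℂ) * Complex.exp (Complex.I * w * x)

theorem J_sum (w : ℕ) (A B : M3) {P : MvPolynomial (Fin 3 × Fin 3) ℝ} {d : ℕ}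
    (hP : P.IsHomogeneous d) :
    J w A B P = ∑ m ∈ Sd d, ((MvPolynomial.coeff m P : ℝ) : ℂ) *
      ∫ x in (0 : ℝ)..2 * π, ((∏ i : Fin 3 × Fin 3, (A * Rot x * B) i.1 i.2 ^ m i : ℝ) : ℂ) *
        Complex.exp (Complex.I * w * x) := by
  unfold J
  have h1 : ∀ x : ℝ, (evM P (A * Rot x * B) : ℂ) * Complex.exp (Complex.I * w * x) =
      ∑ m ∈ Sd d, ((MvPolynomial.coeff m P : ℝ) : ℂ) *
        (((∏ i : Fin 3 × Fin 3, (A * Rot x * B) i.1 i.2 ^ m i : ℝ) : ℂ) *
          Complex.exp (Complex.I * w * x)) := by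
    intro x
    rw [evM_sum hP, Complex.ofReal_sum, Finset.sum_mul]
    refine Finset.sum_congr rfl fun m _ => ?_
    rw [Complex.ofReal_mul]
    ring
  simp only [h1]
  rw [intervalIntegral.integral_finsetSum]
  · refine Finset.sum_congr rfl fun m _ => ?_
    rw [intervalIntegral.integral_const_mul]
  · intro m _
    apply Continuous.intervalIntegrable
    exact continuous_const.mul
      ((Complex.continuous_ofReal.comp (cont_mon m A B)).mul (cont_exp w))

theorem gE2 (hE0 : G_E0) (hE3 : G_E3) : G_E2 := by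
  intro N M C s ah as hs ht hta hb A hA B hB w hw
  obtain ⟨D, Γ, h1, h2, h3, h4, h5⟩ := hE0 N M
  -- the coefficient vectors
  set bk : ℕ → Idx N → ℝ := fun k α => s k ^ (wt α - dg α) * ah k α with hbk
  set bs : Idx N → ℝ := fun α => if 2 ≤ dg α then as α else 0 with hbs
  have e1 : (fun α : Idx N => if 2 ≤ dg α then Polynomial.C (as α : ℂ) else 0) =
      fun α => Polynomial.C ((bs α : ℝ) : ℂ) := by
    funext α
    simp only [hbs]
    split_ifs <;> simp
  rw [e1, h5 bs (Zm A B) w]
  rcases Nat.lt_or_ge D w with hDw | hwD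
  · rw [h2 w bs hDw]
    simp [evC]
  -- the limit of the coefficient vectors
  have hlim : Tendsto bk atTop (𝓝 bs) := by
    rw [tendsto_pi_nhds]
    intro α
    have ha : Tendsto (fun k => ah k α) atTop (𝓝 (as α)) := (tendsto_pi_nhds.1 hta) α
    simp only [hbk, hbs]
    split_ifs with h
    · have : wt α - dg α = 0 := by unfold wt; omega
      simpa [this] using ha
    · have h0 : wt α - dg α ≠ 0 := by unfold wt; omega
      have := (ht.pow (wt α - dg α)).mul ha
      simpa [h0] using this
  -- continuity of the functional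
  have hJc : ∀ d, Continuous fun b => J w A B (Γ d b) := by
    intro d
    have : (fun b => J w A B (Γ d b)) = fun b => ∑ m ∈ Sd d, ((MvPolynomial.coeff m (Γ d b) : ℝ) : ℂ) *
      ∫ x in (0 : ℝ)..2 * π, ((∏ i : Fin 3 × Fin 3, (A * Rot x * B) i.1 i.2 ^ m i : ℝ) : ℂ) *
        Complex.exp (Complex.I * w * x) := by
      funext b
      exact J_sum w A B (h1 d b)
    rw [this]
    exact continuous_finsetSum _ fun m _ =>
      (Complex.continuous_ofReal.comp (h3 d m)).mul continuous_const
  have hJl : ∀ d, Tendsto (fun k => J w A B (Γ d (bk k))) atTop (𝓝 (J w A B (Γ d bs))) :=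
    fun d => ((hJc d).tendsto bs).comp hlim
  -- the value at the degree `w`
  have hJw : J w A B (Γ w bs) = 2 * π * evC (Γ w bs) (Zm A B) :=
    (hE3 (Γ w bs) w w A B (h1 w bs)).2 rfl
  have hJ0 : ∀ d < w, ∀ b, J w A B (Γ d b) = 0 := fun d hd b =>
    (hE3 (Γ d b) d w A B (h1 d b)).1 hd
  -- the expansion
  have hq : ∀ k, ∀ X : M3, Ph M (fun α => s k ^ wt α * ah k α) X =
      ∑ d ∈ Finset.range (D + 1), s k ^ d * evM (Γ d (bk k)) X := by
    intro k X
    rw [← h4]
    congr 1
    funext α
    simp only [hbk]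
    rw [← mul_assoc, ← pow_add]
    congr 2
    unfold wt
    omega
  have hF : ∀ k, ∫ x in (0 : ℝ)..2 * π,
      ((Ph M (fun α => s k ^ wt α * ah k α) (A * Rot x * B) : ℝ) : ℂ) *
        Complex.exp (Complex.I * w * x) =
      ∑ d ∈ Finset.range (D + 1), (s k : ℂ) ^ d * J w A B (Γ d (bk k)) := by
    intro k
    have e2 : ∀ x : ℝ, ((Ph M (fun α => s k ^ wt α * ah k α) (A * Rot x * B) : ℝ) : ℂ) *
        Complex.exp (Complex.I * w * x) = ∑ d ∈ Finset.range (D + 1), (s k : ℂ) ^ d *
          ((evM (Γ d (bk k)) (A * Rot x * B) : ℂ) * Complex.exp (Complex.I * w * x)) := by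
      intro x
      rw [hq, Complex.ofReal_sum, Finset.sum_mul]
      refine Finset.sum_congr rfl fun d _ => ?_
      rw [Complex.ofReal_mul, Complex.ofReal_pow]
      ring
    simp only [e2]
    rw [intervalIntegral.integral_finsetSum]
    · refine Finset.sum_congr rfl fun d _ => ?_
      rw [intervalIntegral.integral_const_mul]
      rfl
    · intro d _
      apply Continuous.intervalIntegrable
      exact continuous_const.mul
        ((Complex.continuous_ofReal.comp (cont_evM _ A B)).mul (cont_exp w))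
  -- the bound
  have hbd : ∀ k, ‖∑ d ∈ Finset.range (D + 1), (s k : ℂ) ^ d * J w A B (Γ d (bk k))‖ ≤
      C * s k ^ (N + 1) * (2 * π) := by
    intro k
    rw [← hF k]
    have h6 := intervalIntegral.norm_integral_le_of_norm_le_const (a := (0 : ℝ)) (b := 2 * π)
      (C := C * s k ^ (N + 1))
      (f := fun x : ℝ => ((Ph M (fun α => s k ^ wt α * ah k α) (A * Rot x * B) : ℝ) : ℂ) *
        Complex.exp (Complex.I * w * x)) (by
        intro x _
        have h7 : ‖Complex.exp (Complex.I * w * x)‖ = 1 := by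
          rw [Complex.norm_exp]
          simp
        rw [norm_mul, h7, mul_one, Complex.norm_real, Real.norm_eq_abs]
        exact hb k _ (mul_mem (mul_mem hA (Rot_SO3 x)) hB))
    rw [sub_zero, abs_of_pos (by positivity)] at h6
    exact h6
  -- division by `s ^ w`
  set g : ℕ → ℂ := fun k => ∑ d ∈ Finset.range (D + 1),
    if d < w then 0 else (s k : ℂ) ^ (d - w) * J w A B (Γ d (bk k)) with hg
  have hg1 : ∀ k, ∑ d ∈ Finset.range (D + 1), (s k : ℂ) ^ d * J w A B (Γ d (bk k)) =
      (s k : ℂ) ^ w * g k := by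
    intro k
    simp only [hg]
    rw [Finset.mul_sum]
    refine Finset.sum_congr rfl fun d _ => ?_
    split_ifs with h
    · rw [hJ0 d h]; ring
    · rw [← mul_assoc, ← pow_add]
      congr 2
      omega
  have hg2 : ∀ k, ‖g k‖ ≤ C * s k ^ (N + 1 - w) * (2 * π) := by
    intro k
    have h8 := hbd k
    rw [hg1 k, norm_mul, norm_pow, Complex.norm_real, Real.norm_eq_abs, abs_of_pos (hs k)] at h8
    have h9 : 0 < s k ^ w := pow_pos (hs k) w
    have h10 : s k ^ (N + 1) = s k ^ w * s k ^ (N + 1 - w) := by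
      rw [← pow_add]
      congr 1
      omega
    rw [h10] at h8
    refine le_of_mul_le_mul_left (a := s k ^ w) ?_ h9
    linarith
  have hg3 : Tendsto g atTop (𝓝 0) := by
    rw [tendsto_zero_iff_norm_tendsto_zero]
    refine squeeze_zero (fun k => norm_nonneg _) hg2 ?_
    have h11 : N + 1 - w ≠ 0 := by omega
    have := ((ht.pow (N + 1 - w)).const_mul C).mul_const (2 * π)
    simpa [h11] using this
  have hg4 : Tendsto g atTop (𝓝 (J w A B (Γ w bs))) := by
    have h12 : J w A B (Γ w bs) = ∑ d ∈ Finset.range (D + 1),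
        if d = w then J w A B (Γ w bs) else 0 := by
      rw [Finset.sum_ite_eq' (Finset.range (D + 1)) w (fun _ => J w A B (Γ w bs)),
        if_pos (Finset.mem_range.2 (by omega))]
    rw [h12]
    refine tendsto_finsetSum _ fun d _ => ?_
    rcases lt_trichotomy d w with h | h | h
    · rw [if_neg (by omega)]
      simp only [if_pos h]
      exact tendsto_const_nhds
    · subst h
      simp only [if_true, lt_irrefl, if_false, Nat.sub_self, pow_zero, one_mul]
      exact hJl d
    · rw [if_neg (by omega)]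
      simp only [if_neg (show ¬ d < w by omega)]
      have h13 : Tendsto (fun k => (s k : ℂ)) atTop (𝓝 ((0 : ℝ) : ℂ)) :=
        (Complex.continuous_ofReal.tendsto 0).comp ht
      have h14 : d - w ≠ 0 := by omega
      have := (h13.pow (d - w)).mul (hJl d)
      simpa [h14] using this
  have hfin := tendsto_nhds_unique hg4 hg3
  rw [hJw] at hfin
  have hpi : (2 * (π : ℂ)) ≠ 0 := by
    have : (π : ℂ) ≠ 0 := Complex.ofReal_ne_zero.2 Real.pi_ne_zero
    simp [this]
  exact (mul_eq_zero.1 hfin).resolve_left hpi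

end Pool.Agent.Helper75.LU
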